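import Mathlib

open Finset

namespace Pool.Agent.Results.MP_a0b46e_nt.Supercongruence

/-- `S m n = ∑_{k=1}^n C(n,k)^2 C(n+k,k)^2 / k^(2m+1)`, a rational number. -/
def S (m n : ℕ) : ℚ :=
  ∑ k ∈ Icc 1 n, ((n.choose k : ℚ) ^ 2 * ((n + k).choose k : ℚ) ^ 2) / (k : ℚ) ^ (2 * m + 1)

/-- `u m n` is the numerator of `S m n` in lowest terms. -/
def u (m n : ℕ) : ℤ := (S m n).num

section padic

variable {p : ℕ} [hp : Fact p.Prime]

/-- inverse of `k` in `ℤ_[p]`. -/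
noncomputable def v (p : ℕ) [Fact p.Prime] (k : ℕ) : ℤ_[p] := (k : ℤ_[p]).inv

lemma mul_v {k : ℕ} (h1 : 1 ≤ k) (h2 : k < p) : (k : ℤ_[p]) * v p k = 1 := by
  unfold v
  apply PadicInt.mul_inv
  rw [PadicInt.norm_natCast_eq_one_iff]
  exact Nat.coprime_of_lt_prime (by omega) h2 hp.out

/-- `k * C(p-1+k,k) = p * ∏_{j<k} (1 + p/j)`. -/
lemma chooseA (k : ℕ) (hk : k + 1 < p) :
    ((k + 1 : ℕ) : ℤ_[p]) * ((p - 1 + (k + 1)).choose (k + 1) : ℕ) =
      (p : ℤ_[p]) * ∏ j ∈ Icc 1 k, (1 + (p : ℤ_[p]) * v p j) := by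
  induction k with
  | zero =>
    have h1 : 1 ≤ p := by omega
    simp
    rw [Nat.cast_sub h1]; simp
  | succ k ih =>
    have ih' := ih (by omega)
    rw [Finset.prod_Icc_succ_top (by omega : 1 ≤ k + 1), ← mul_assoc, ← ih']
    have h3 : (k + 1 + 1) * (p - 1 + (k + 1 + 1)).choose (k + 1 + 1)
        = (p + (k + 1)) * (p - 1 + (k + 1)).choose (k + 1) := by
      have := Nat.add_one_mul_choose_eq (p - 1 + (k + 1)) (k + 1)
      have e : p - 1 + (k + 1) + 1 = p + (k + 1) := by omega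
      rw [e] at this
      have e2 : p - 1 + (k + 1 + 1) = p + (k + 1) := by omega
      rw [e2, mul_comm, ← this]
    have h4 : ((k + 1 + 1 : ℕ) : ℤ_[p]) * ((p - 1 + (k + 1 + 1)).choose (k + 1 + 1) : ℕ)
        = ((p : ℤ_[p]) + ((k + 1 : ℕ) : ℤ_[p])) * ((p - 1 + (k + 1)).choose (k + 1) : ℕ) := by
      exact_mod_cast h3
    rw [h4]
    have h5 := mul_v (p := p) (k := k + 1) (by omega) (by omega)
    linear_combination (-((p - 1 + (k + 1)).choose (k + 1) : ℕ) * (p : ℤ_[p])) * h5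

/-- `C(p-1,k) = (-1)^k ∏_{j≤k} (1 - p/j)`. -/
lemma chooseB (k : ℕ) (hk : k < p) :
    (((p - 1).choose k : ℕ) : ℤ_[p]) = (-1) ^ k * ∏ j ∈ Icc 1 k, (1 - (p : ℤ_[p]) * v p j) := by
  induction k with
  | zero => simp
  | succ k ih =>
    have ih' := ih (by omega)
    have h5 := mul_v (p := p) (k := k + 1) (by omega) hk
    have h3 := Nat.choose_succ_right_eq (p - 1) k
    have h4 : (((p - 1).choose (k + 1) : ℕ) : ℤ_[p]) * ((k + 1 : ℕ) : ℤ_[p])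
        = (((p - 1).choose k : ℕ) : ℤ_[p]) * ((p : ℤ_[p]) - ((k + 1 : ℕ) : ℤ_[p])) := by
      have e : ((p - 1 - k : ℕ) : ℤ_[p]) = (p : ℤ_[p]) - ((k + 1 : ℕ) : ℤ_[p]) := by
        rw [← Nat.cast_sub (by omega)]
        congr 1; omega
      rw [← e]
      exact_mod_cast h3
    rw [Finset.prod_Icc_succ_top (by omega : 1 ≤ k + 1), pow_succ]
    have h6 : (((p - 1).choose (k + 1) : ℕ) : ℤ_[p])
        = (((p - 1).choose k : ℕ) : ℤ_[p]) * ((p : ℤ_[p]) - ((k + 1 : ℕ) : ℤ_[p])) * v p (k + 1) := by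
      rw [← h4, mul_assoc, h5, mul_one]
    rw [h6, ih']
    linear_combination (-((-1) ^ k * ∏ j ∈ Icc 1 k, (1 - (p : ℤ_[p]) * v p j))) * h5

/-- product of the squares of the two binomial coefficients. -/
lemma chooseAB (k : ℕ) (hk : k + 1 < p) :
    ((((p - 1).choose (k + 1) : ℕ) : ℤ_[p])) ^ 2 * (((p - 1 + (k + 1)).choose (k + 1) : ℕ) : ℤ_[p]) ^ 2
      = (p : ℤ_[p]) ^ 2 * (v p (k + 1) ^ 2 * (1 - (p : ℤ_[p]) * v p (k + 1)) ^ 2 *
        ∏ j ∈ Icc 1 k, (1 - (p : ℤ_[p]) ^ 2 * v p j ^ 2) ^ 2) := by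
  have h5 := mul_v (p := p) (k := k + 1) (by omega) hk
  have hA := chooseA (p := p) k hk
  have hB := chooseB (p := p) (k + 1) hk
  have hA' : (((p - 1 + (k + 1)).choose (k + 1) : ℕ) : ℤ_[p]) =
      v p (k + 1) * ((p : ℤ_[p]) * ∏ j ∈ Icc 1 k, (1 + (p : ℤ_[p]) * v p j)) := by
    rw [← hA, ← mul_assoc, mul_comm (v p (k+1)), h5, one_mul]
  rw [hA', hB, Finset.prod_Icc_succ_top (by omega : 1 ≤ k + 1)]
  have e : ∏ j ∈ Icc 1 k, (1 - (p : ℤ_[p]) ^ 2 * v p j ^ 2) ^ 2 =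
      (∏ j ∈ Icc 1 k, (1 - (p : ℤ_[p]) * v p j)) ^ 2 *
      (∏ j ∈ Icc 1 k, (1 + (p : ℤ_[p]) * v p j)) ^ 2 := by
    rw [← Finset.prod_pow, ← Finset.prod_pow, ← Finset.prod_mul_distrib]
    apply Finset.prod_congr rfl
    intro j _
    ring
  rw [e]
  have e2 : ((-1 : ℤ_[p]) ^ (k + 1)) ^ 2 = 1 := by
    rw [← pow_mul, mul_comm, pow_mul]; simp
  linear_combination (v p (k+1) ^ 2 * (p:ℤ_[p])^2 * (∏ j ∈ Icc 1 k, (1 + (p : ℤ_[p]) * v p j))^2 * (∏ j ∈ Icc 1 k, (1 - (p : ℤ_[p]) * v p j))^2 * (1 - (p : ℤ_[p]) * v p (k + 1)) ^ 2) * e2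


/-- the p-adic version of `S m (p-1)`. -/
noncomputable def SR (p : ℕ) [Fact p.Prime] (m : ℕ) : ℤ_[p] :=
  ∑ k ∈ Icc 1 (p - 1), ((((p - 1).choose k : ℕ) : ℤ_[p]) ^ 2 *
    (((p - 1 + k).choose k : ℕ) : ℤ_[p]) ^ 2) * v p k ^ (2 * m + 1)

/-- `SR = p^2 * T`. -/
noncomputable def T (p : ℕ) [Fact p.Prime] (m : ℕ) : ℤ_[p] :=
  ∑ k ∈ Icc 1 (p - 1), v p k ^ (2 * m + 3) * (1 - (p : ℤ_[p]) * v p k) ^ 2 *
        ∏ j ∈ Icc 1 (k - 1), (1 - (p : ℤ_[p]) ^ 2 * v p j ^ 2) ^ 2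

lemma SR_eq (m : ℕ) : SR p m = (p : ℤ_[p]) ^ 2 * T p m := by
  unfold SR T
  rw [Finset.mul_sum]
  apply Finset.sum_congr rfl
  intro k hk
  rw [Finset.mem_Icc] at hk
  obtain ⟨k, rfl⟩ : ∃ l, k = l + 1 := ⟨k - 1, by omega⟩
  rw [chooseAB k (by omega)]
  simp only [Nat.add_sub_cancel]
  ring

/-- an identity in rings with a square-zero element. -/
lemma one_add_pow_sq_zero {Q : Type*} [CommRing Q] (π x : Q) (hπ : π ^ 2 = 0) (s : ℕ) :
    (1 + π * x) ^ s = 1 + s * π * x := by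
  induction s with
  | zero => simp
  | succ s ih =>
    rw [pow_succ, ih]
    push_cast
    linear_combination (s * x ^ 2) * hπ

/-- sums of powers modulo `p^2`. -/
lemma two_H {Q : Type*} [CommRing Q] (f : ℤ_[p] →+* Q) (hf : f ((p : ℤ_[p])) ^ 2 = 0) (m : ℕ) :
    2 * ∑ k ∈ Icc 1 (p - 1), f (v p k) ^ (2 * m + 3) =
      - ((2 * m + 3 : ℕ) : Q) * f (p : ℤ_[p]) * ∑ k ∈ Icc 1 (p - 1), f (v p k) ^ (2 * m + 4) := by
  have key : ∀ k ∈ Icc 1 (p - 1), f (v p (p - k)) ^ (2 * m + 3) =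
      - f (v p k) ^ (2 * m + 3) - ((2 * m + 3 : ℕ) : Q) * f (p : ℤ_[p]) * f (v p k) ^ (2 * m + 4) := by
    intro k hk
    rw [Finset.mem_Icc] at hk
    have h1 := mul_v (p := p) (k := k) hk.1 (by omega)
    have h2 := mul_v (p := p) (k := p - k) (by omega) (by omega)
    have h3 : ((p - k : ℕ) : ℤ_[p]) = (p : ℤ_[p]) - k := by
      rw [Nat.cast_sub (by omega)]
    rw [h3] at h2
    have h1' := congrArg f h1
    have h2' := congrArg f h2
    rw [map_mul, map_one] at h1' h2'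
    rw [map_sub] at h2'
    have h4 : f (v p (p - k)) = - (f (v p k) * (1 + f (p : ℤ_[p]) * f (v p k))) := by
      -- multiply by (p - k)
      have : f (v p (p - k)) * (((f (p : ℤ_[p]) - f (k : ℤ_[p])) * f (v p (p - k)))) =
        - (f (v p k) * (1 + f (p : ℤ_[p]) * f (v p k))) * (((f (p : ℤ_[p]) - f (k : ℤ_[p])) * f (v p (p - k)))) := by
        have e : (f (p : ℤ_[p]) - f (k : ℤ_[p])) * (- (f (v p k) * (1 + f (p : ℤ_[p]) * f (v p k)))) = 1 := by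
          linear_combination (-(f (v p k)) ^ 2) * hf + (1 + f (p : ℤ_[p]) * f (v p k)) * h1'
        linear_combination (f (v p (p - k))) * h2' - (f (v p (p - k))) * e
      rw [h2', mul_one, mul_one] at this
      exact this
    rw [h4, Odd.neg_pow (by exact ⟨m + 1, by ring⟩), mul_pow, one_add_pow_sq_zero _ _ hf]
    ring
  have hrefl : ∑ k ∈ Icc 1 (p - 1), f (v p k) ^ (2 * m + 3) =
      ∑ k ∈ Icc 1 (p - 1), f (v p (p - k)) ^ (2 * m + 3) := by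
    apply Finset.sum_nbij' (fun k => p - k) (fun k => p - k)
    · intro k hk; rw [Finset.mem_Icc] at hk ⊢; omega
    · intro k hk; rw [Finset.mem_Icc] at hk ⊢; omega
    · intro k hk; rw [Finset.mem_Icc] at hk; omega
    · intro k hk; rw [Finset.mem_Icc] at hk; omega
    · intro k hk; rw [Finset.mem_Icc] at hk
      have : p - (p - k) = k := by omega
      rw [this]
  rw [two_mul]
  nth_rewrite 2 [hrefl]
  rw [← Finset.sum_add_distrib, Finset.mul_sum]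
  apply Finset.sum_congr rfl
  intro k hk
  rw [key k hk]
  ring

/-- `2 T` modulo `p^2`. -/
lemma two_T {Q : Type*} [CommRing Q] (f : ℤ_[p] →+* Q) (hf : f ((p : ℤ_[p])) ^ 2 = 0) (m : ℕ) :
    2 * f (T p m) =
      - ((2 * m + 7 : ℕ) : Q) * f (p : ℤ_[p]) * ∑ k ∈ Icc 1 (p - 1), f (v p k) ^ (2 * m + 4) := by
  have e : f (T p m) = ∑ k ∈ Icc 1 (p - 1), f (v p k) ^ (2 * m + 3)
      - 2 * f (p : ℤ_[p]) * ∑ k ∈ Icc 1 (p - 1), f (v p k) ^ (2 * m + 4) := by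
    unfold T
    rw [map_sum, Finset.mul_sum, ← Finset.sum_sub_distrib]
    apply Finset.sum_congr rfl
    intro k hk
    rw [map_mul, map_prod]
    have : ∏ j ∈ Icc 1 (k - 1), f ((1 - (p : ℤ_[p]) ^ 2 * v p j ^ 2) ^ 2) = 1 := by
      apply Finset.prod_eq_one
      intro j _
      rw [map_pow, map_sub, map_mul, map_pow, hf]; simp
    rw [this, mul_one]
    simp only [map_mul, map_pow, map_sub, map_one]
    linear_combination (f (v p k)) ^ (2 * m + 5) * hf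
  rw [e, mul_sub, two_H f hf m]
  push_cast
  ring


lemma dvd_iff_toZMod (x : ℤ_[p]) : (p : ℤ_[p]) ∣ x ↔ PadicInt.toZMod x = 0 := by
  rw [← RingHom.mem_ker, PadicInt.ker_toZMod, PadicInt.maximalIdeal_eq_span_p,
    Ideal.mem_span_singleton]

lemma isUnit_two (h2 : p ≠ 2) : IsUnit (2 : ℤ_[p]) := by
  rw [PadicInt.isUnit_iff]
  have := (PadicInt.norm_natCast_eq_one_iff (p := p) (n := 2)).2
    (((Nat.coprime_primes hp.out Nat.prime_two).2 h2))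
  exact_mod_cast this

lemma sq_dvd_T (h2 : p ≠ 2) (m : ℕ) : (p : ℤ_[p]) ^ 2 ∣ T p m ↔
    (p : ℤ_[p]) ∣ ((2 * m + 7 : ℕ) : ℤ_[p]) * ∑ k ∈ Icc 1 (p - 1), v p k ^ (2 * m + 4) := by
  set I : Ideal ℤ_[p] := Ideal.span {(p : ℤ_[p]) ^ 2} with hI
  set f := Ideal.Quotient.mk I with hf
  have hf0 : ∀ x : ℤ_[p], f x = 0 ↔ (p : ℤ_[p]) ^ 2 ∣ x := by
    intro x
    rw [hf, Ideal.Quotient.eq_zero_iff_mem, hI, Ideal.mem_span_singleton]
  have hfp : f (p : ℤ_[p]) ^ 2 = 0 := by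
    rw [← map_pow, hf0]
  have key := two_T f hfp m
  have hp0 : (p : ℤ_[p]) ≠ 0 := by exact_mod_cast hp.out.ne_zero
  have e1 : (p : ℤ_[p]) ^ 2 ∣ T p m ↔ (p : ℤ_[p]) ^ 2 ∣ 2 * T p m := by
    constructor
    · intro h; exact Dvd.dvd.mul_left h 2
    · intro h
      have := isUnit_two (p := p) h2
      exact (this.dvd_mul_left).1 h
  rw [e1, ← hf0, map_mul, map_ofNat, key]
  have e2 : - ((2 * m + 7 : ℕ) : ℤ_[p] ⧸ I) * f (p : ℤ_[p]) *
      ∑ k ∈ Icc 1 (p - 1), f (v p k) ^ (2 * m + 4) =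
      f (-((p : ℤ_[p]) * (((2 * m + 7 : ℕ) : ℤ_[p]) *
        ∑ k ∈ Icc 1 (p - 1), v p k ^ (2 * m + 4)))) := by
    simp only [map_neg, map_mul, map_sum, map_pow, map_natCast]
    ring
  rw [e2, hf0, dvd_neg, sq]
  exact mul_dvd_mul_iff_left hp0

lemma toZMod_v {k : ℕ} (h1 : 1 ≤ k) (h2 : k < p) :
    PadicInt.toZMod (v p k) = ((k : ZMod p))⁻¹ := by
  have h := congrArg PadicInt.toZMod (mul_v (p := p) h1 h2)
  rw [map_mul, map_one, map_natCast] at h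
  exact eq_inv_of_mul_eq_one_right h

lemma sum_inv_pow (i : ℕ) : ∑ k ∈ Icc 1 (p - 1), ((k : ZMod p))⁻¹ ^ i =
    if (p - 1) ∣ i then (-1 : ZMod p) else 0 := by
  have h := FiniteField.sum_pow_units (ZMod p) i
  rw [ZMod.card] at h
  rw [← h]
  symm
  have hp1 : 1 < p := hp.out.one_lt
  apply Finset.sum_nbij' (fun u : (ZMod p)ˣ => ((u⁻¹ : (ZMod p)ˣ) : ZMod p).val)
    (fun k => if h : (k : ZMod p) ≠ 0 then (Units.mk0 (k : ZMod p) h)⁻¹ else 1)
  · intro u _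
    rw [Finset.mem_Icc]
    have h1 : ((u⁻¹ : (ZMod p)ˣ) : ZMod p).val ≠ 0 := by
      rw [Ne, ZMod.val_eq_zero]
      exact Units.ne_zero _
    have h2 := ZMod.val_lt ((u⁻¹ : (ZMod p)ˣ) : ZMod p)
    omega
  · intro k _; exact Finset.mem_univ _
  · intro u _
    have h1 : ((((u⁻¹ : (ZMod p)ˣ) : ZMod p).val : ℕ) : ZMod p) = ((u⁻¹ : (ZMod p)ˣ) : ZMod p) :=
      ZMod.natCast_zmod_val _
    rw [dif_pos (by rw [h1]; exact Units.ne_zero _)]
    apply Units.ext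
    rw [Units.val_inv_eq_inv_val, Units.val_mk0, h1, Units.val_inv_eq_inv_val, inv_inv]
  · intro k hk
    rw [Finset.mem_Icc] at hk
    have hk0 : (k : ZMod p) ≠ 0 := by
      rw [Ne, ZMod.natCast_eq_zero_iff]
      intro hd
      have := Nat.le_of_dvd (by omega) hd
      omega
    rw [dif_pos hk0]
    simp only [inv_inv, Units.val_mk0]
    rw [ZMod.val_natCast, Nat.mod_eq_of_lt (by omega)]
  · intro u _
    have h1 : ((((u⁻¹ : (ZMod p)ˣ) : ZMod p).val : ℕ) : ZMod p) = ((u⁻¹ : (ZMod p)ˣ) : ZMod p) :=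
      ZMod.natCast_zmod_val _
    rw [h1, Units.val_inv_eq_inv_val, inv_inv]

lemma sq_dvd_T' (h2 : p ≠ 2) (m : ℕ) : (p : ℤ_[p]) ^ 2 ∣ T p m ↔
    (¬ (p - 1) ∣ (2 * m + 4) ∨ p ∣ (2 * m + 7)) := by
  rw [sq_dvd_T h2, dvd_iff_toZMod, map_mul, map_natCast, map_sum]
  have e : ∑ k ∈ Icc 1 (p - 1), PadicInt.toZMod (v p k ^ (2 * m + 4)) =
      ∑ k ∈ Icc 1 (p - 1), ((k : ZMod p))⁻¹ ^ (2 * m + 4) := by
    apply Finset.sum_congr rfl
    intro k hk
    rw [Finset.mem_Icc] at hk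
    rw [map_pow, toZMod_v hk.1 (by omega)]
  rw [e, sum_inv_pow, mul_eq_zero, ZMod.natCast_eq_zero_iff]
  split_ifs with h
  · simp [h]
  · simp [h]

lemma coe_SR (m : ℕ) : ((SR p m : ℤ_[p]) : ℚ_[p]) = ((S m (p - 1) : ℚ) : ℚ_[p]) := by
  unfold SR S
  have e0 := map_sum (PadicInt.Coe.ringHom (p := p)) (fun k => ((((p - 1).choose k : ℕ) : ℤ_[p]) ^ 2 *
    (((p - 1 + k).choose k : ℕ) : ℤ_[p]) ^ 2) * v p k ^ (2 * m + 1)) (Icc 1 (p - 1))
  refine e0.trans ?_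
  rw [Rat.cast_sum]
  apply Finset.sum_congr rfl
  intro k hk
  change (((((((p - 1).choose k : ℕ) : ℤ_[p]) ^ 2 *
    (((p - 1 + k).choose k : ℕ) : ℤ_[p]) ^ 2) * v p k ^ (2 * m + 1) : ℤ_[p]) : ℚ_[p])) = _
  push_cast
  rw [Finset.mem_Icc] at hk
  have h5 := mul_v (p := p) (k := k) hk.1 (by omega)
  have h6 : (k : ℚ_[p]) * ((v p k : ℤ_[p]) : ℚ_[p]) = 1 := by
    have := congrArg (fun x : ℤ_[p] => (x : ℚ_[p])) h5
    simpa using this
  have hk0 : (k : ℚ_[p]) ≠ 0 := by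
    exact_mod_cast (by omega : k ≠ 0)
  have h7 : ((v p k : ℤ_[p]) : ℚ_[p]) = ((k : ℚ_[p]))⁻¹ := eq_inv_of_mul_eq_one_right h6
  rw [h7, inv_pow, div_eq_mul_inv]

lemma num_iff (x : ℚ) (y : ℤ_[p]) (h : (y : ℚ_[p]) = (x : ℚ_[p])) (n : ℕ) (hn : 1 ≤ n):
    (p : ℤ) ^ n ∣ x.num ↔ (p : ℤ_[p]) ^ n ∣ y := by
  have hx : (x.num : ℚ_[p]) = (y : ℚ_[p]) * (x.den : ℚ_[p]) := by
    rw [h]
    have : (x.num : ℚ) = x * x.den := by rw [Rat.mul_den_eq_num]
    exact_mod_cast congrArg (fun t : ℚ => (t : ℚ_[p])) this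
  have hx' : (x.num : ℤ_[p]) = y * (x.den : ℤ_[p]) := by
    apply PadicInt.ext
    push_cast
    exact hx
  rw [← Ideal.mem_span_singleton (x := y), ← PadicInt.norm_le_pow_iff_mem_span_pow,
    ← PadicInt.norm_int_le_pow_iff_dvd, hx', norm_mul]
  have hden : ‖(x.den : ℤ_[p])‖ ≤ 1 := PadicInt.norm_le_one _
  constructor
  · intro h1
    have hcop : ‖(x.den : ℤ_[p])‖ = 1 := by
      rw [PadicInt.norm_natCast_eq_one_iff]
      rw [Nat.Prime.coprime_iff_not_dvd hp.out]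
      intro hd
      -- p divides num and den
      have h3 : (p : ℤ) ∣ x.num := by
        rw [← norm_mul, ← hx', PadicInt.norm_int_le_pow_iff_dvd] at h1
        exact (dvd_pow_self (p : ℤ) (by omega)).trans h1
      have h4 := x.reduced
      have h5 : p ∣ x.num.natAbs := Int.natCast_dvd.1 h3
      have h6 := Nat.dvd_gcd h5 hd
      rw [h4] at h6
      exact hp.out.one_lt.ne' (Nat.dvd_one.1 h6)
    rw [hcop, mul_one] at h1
    exact h1
  · intro h1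
    calc ‖y‖ * ‖(x.den : ℤ_[p])‖ ≤ ‖y‖ * 1 := by
          apply mul_le_mul_of_nonneg_left hden (norm_nonneg _)
      _ = ‖y‖ := mul_one _
      _ ≤ _ := h1

lemma main_odd (h2 : p ≠ 2) (m : ℕ) : (p : ℤ) ^ 4 ∣ u m (p - 1) ↔
    (¬ (p - 1) ∣ (2 * m + 4) ∨ p ∣ (2 * m + 7)) := by
  unfold u
  rw [num_iff (p := p) (S m (p - 1)) (SR p m) (coe_SR m) 4 (by norm_num), SR_eq,
    ← sq_dvd_T' h2]
  have hp0 : (p : ℤ_[p]) ≠ 0 := by exact_mod_cast hp.out.ne_zero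
  have : (p : ℤ_[p]) ^ 4 = (p : ℤ_[p]) ^ 2 * (p : ℤ_[p]) ^ 2 := by ring
  rw [this]
  exact mul_dvd_mul_iff_left (pow_ne_zero _ hp0)

end padic

/-- For every `m` there is a finite set `E` of primes such that for every prime `p`,
`p^4 ∣ u m (p-1)` exactly when `p ∉ E`.  Explicitly `E` consists of `2` and of the odd primes `p`
with `(p-1) ∣ 2m+4` and `p ∤ 2m+7`. -/
theorem result : ∀ m : ℕ, ∃ E : Finset ℕ,
    (∀ p : ℕ, p ∈ E ↔ p.Prime ∧ (p = 2 ∨ ((p - 1) ∣ (2 * m + 4) ∧ ¬ p ∣ (2 * m + 7)))) ∧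
    ∀ p : ℕ, p.Prime → ((p : ℤ) ^ 4 ∣ u m (p - 1) ↔ p ∉ E) := by
  intro m
  refine ⟨(Finset.range (2 * m + 6)).filter
    (fun p => p.Prime ∧ (p = 2 ∨ ((p - 1) ∣ (2 * m + 4) ∧ ¬ p ∣ (2 * m + 7)))), ?_, ?_⟩
  · intro p
    rw [Finset.mem_filter, Finset.mem_range]
    constructor
    · rintro ⟨_, h⟩; exact h
    · rintro ⟨h1, h2⟩
      refine ⟨?_, h1, h2⟩
      rcases h2 with h2 | h2
      · omega
      · have := Nat.le_of_dvd (by omega) h2.1
        omega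
  · intro p hp
    have : Fact p.Prime := ⟨hp⟩
    by_cases h2 : p = 2
    · subst h2
      constructor
      · intro h
        exfalso
        have e : u m (2 - 1) = 4 := by
          unfold u S
          norm_num [Nat.choose]
        rw [e] at h
        norm_num at h
      · intro h
        exfalso
        apply h
        rw [Finset.mem_filter, Finset.mem_range]
        exact ⟨by omega, Nat.prime_two, Or.inl rfl⟩
    · rw [main_odd h2 m, Finset.mem_filter, Finset.mem_range]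
      constructor
      · rintro h ⟨_, _, h3⟩
        rcases h3 with h3 | h3
        · exact h2 h3
        · rcases h with h | h
          · exact h h3.1
          · exact h3.2 h
      · intro h
        by_contra hcon
        rw [not_or, not_not] at hcon
        apply h
        refine ⟨?_, hp, Or.inr hcon⟩
        have := Nat.le_of_dvd (by omega) hcon.1
        omega

end Pool.Agent.Results.MP_a0b46e_nt.Supercongruence
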